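import Pool.Agent.H66.SYM.Basic

/-!
# The patterns of the constituents of a Schur functor of `τ` add up to its weights
-/

namespace Pool.H66.SYM

open Filter Topology

theorem LBA_mono (A : AData) (τ : A.Cusp) (m : ℕ) (hm : 1 ≤ m) (d : ℤ) {H H' : ℕ} (h : H ≤ H') :
    A.Irr τ m d H ⊆ A.Irr τ m d H' := by
  intro z hz
  refine ⟨hz.1.trans (Nat.pow_le_pow_right hm h), ?_⟩
  intro p c hc e he
  obtain ⟨a, ha, hea⟩ := hz.2 p c hc e he
  exact ⟨a, Wt_mono h ha, hea⟩

theorem LBA_key (hVAN : S_VAN) {m H : ℕ} {d : ℤ} (c : Fin m → ℂ) (hc : ∀ j, c j ≠ 0)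
    (hg : Gen (2 * H) c) (L : (Fin m → ℤ) →₀ ℤ) (hL : ∀ a ∈ L.support, a ∈ Wt m d H)
    (h : ∀ n : ℕ, 1 ≤ n → (L.sum fun a k => (k : ℂ) * mon c a ^ n) = 0) : L = 0 := by
  classical
  set L' : (Fin m → ℤ) →₀ ℂ := L.mapRange (fun k : ℤ => (k : ℂ)) (by simp) with hL'
  have h1 : Finsupp.mapDomain (mon c) L' = 0 := by
    apply hVAN
    · intro e he
      have := Finsupp.mapDomain_support he
      rw [Finset.mem_image] at this
      obtain ⟨a, _, rfl⟩ := this
      exact mon_ne c hc a
    · intro n hn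
      rw [Finsupp.sum_mapDomain_index (by simp) (by intros; ring)]
      rw [hL', Finsupp.sum_mapRange_index (by simp)]
      exact h n hn
  ext a
  by_cases ha : a ∈ L.support
  · have h2 : Finsupp.mapDomain (mon c) L' (mon c a) = L' a := by
      apply Finsupp.mapDomain_apply' (Wt m d H)
      · intro b hb
        apply hL b
        have : b ∈ L'.support := hb
        rw [Finsupp.mem_support_iff] at this ⊢
        intro h0
        apply this
        simp [hL', h0]
      · intro a ha b hb hab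
        exact mon_inj hc hg ha hb hab
      · exact hL a ha
    rw [h1] at h2
    have h3 : L' a = 0 := h2.symm
    simpa [hL'] using h3
  · simpa using ha

/-- The multiset of patterns as an integer combination. -/
theorem LBA_sum {m : ℕ} (c : Fin m → ℂ) (B : Multiset (Fin m → ℤ)) :
    ∃ L : (Fin m → ℤ) →₀ ℤ, (∀ a ∈ L.support, a ∈ B) ∧ (∀ a, L a = (B.count a : ℤ)) ∧
      ∀ n : ℕ, (L.sum fun a k => (k : ℂ) * mon c a ^ n) = (B.map fun a => mon c a ^ n).sum := by
  classical
  induction B using Multiset.induction_on with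
  | empty => exact ⟨0, by simp, by simp, by simp⟩
  | cons a B ih =>
    obtain ⟨L, h1, h2, h3⟩ := ih
    refine ⟨Finsupp.single a 1 + L, ?_, ?_, ?_⟩
    · intro b hb
      rcases Finset.mem_union.1 (Finsupp.support_add hb) with h | h
      · have := Finsupp.support_single_subset h
        rw [Finset.mem_singleton] at this
        simp [this]
      · exact Multiset.mem_cons_of_mem (h1 b h)
    · intro b
      rw [Finsupp.add_apply, h2, Multiset.count_cons, Finsupp.single_apply]
      by_cases hb : b = a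
      · subst hb; simp; ring
      · have hb' : ¬ a = b := fun h => hb h.symm
        simp [hb, hb']
    · intro n
      rw [Finsupp.sum_add_index' (by simp) (by intros; push_cast; ring), h3]
      simp

theorem LBA_sum' {m : ℕ} (c : Fin m → ℂ) {ι : Type} (B : ι → Multiset (Fin m → ℤ))
    (Q : Multiset ι) :
    ∃ L : (Fin m → ℤ) →₀ ℤ, (∀ a ∈ L.support, ∃ z ∈ Q, a ∈ B z) ∧
      (∀ a, L a = (Q.map fun z => ((B z).count a : ℤ)).sum) ∧
      ∀ n : ℕ, (L.sum fun a k => (k : ℂ) * mon c a ^ n) =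
        (Q.map fun z => ((B z).map fun a => mon c a ^ n).sum).sum := by
  classical
  induction Q using Multiset.induction_on with
  | empty => exact ⟨0, by simp, by simp, by simp⟩
  | cons z Q ih =>
    obtain ⟨L, h1, h2, h3⟩ := ih
    obtain ⟨L₀, k1, k2, k3⟩ := LBA_sum c (B z)
    refine ⟨L₀ + L, ?_, ?_, ?_⟩
    · intro b hb
      rcases Finset.mem_union.1 (Finsupp.support_add hb) with h | h
      · exact ⟨z, by simp, k1 b h⟩
      · obtain ⟨w, hw, hb'⟩ := h1 b h
        exact ⟨w, Multiset.mem_cons_of_mem hw, hb'⟩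
    · intro b
      rw [Finsupp.add_apply, h2, k2]
      simp
    · intro n
      rw [Finsupp.sum_add_index' (by simp) (by intros; push_cast; ring), h3, k3]
      simp

theorem s_LBA (hVIC : S_VIC) (hVAN : S_VAN) (hBAS : S_BAS) : S_LBA := by
  classical
  intro A τ m H F v t c hm hdeg hG nu hnu hH K hK hKs Q hQ
  obtain ⟨-, -, hord, hc0, hgen, hpat⟩ := hG
  set d : ℤ := ((∑ j, nu j : ℕ) : ℤ) with hd
  have hirr : ∀ z ∈ Q, z ∈ A.Irr τ m d H := fun z hz =>
    LBA_mono A.toAData τ m (by omega) d hH (hVIC A τ m hm hdeg nu hnu Q hQ z hz)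
  have hch : ∀ z : A.Cusp, ∃ B : Multiset (Fin m → ℤ), z ∈ A.Irr τ m d H →
      A.Pat z d H ⟨v, t, 1⟩ c B ∧ (∀ σ : Equiv.Perm (Fin m), (B.map fun a => a ∘ σ) = B) ∧
      ∀ (b : Fin m → ℤ) (i j : Fin m), i ≠ j → 1 ≤ b i - b j →
        B.count b ≤ B.count (b - ee i + ee j) := by
    intro z
    by_cases hz : z ∈ A.Irr τ m d H
    · obtain ⟨B, hB⟩ := hpat d z hz
      exact ⟨B, fun _ => by
        convert hB⟩
    · exact ⟨0, fun h => absurd h hz⟩
  choose B hB using hch
  refine ⟨B, fun z hz => ?_, ?_⟩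
  · have := hB z (hirr z hz)
    convert this
  obtain ⟨L, h1, h2, h3⟩ := LBA_sum' c B Q
  have hKW : ∀ a ∈ K.support, a ∈ Wt m d H := by
    intro a ha
    obtain ⟨h0, hs⟩ := hKs a ha
    refine ⟨by rw [hs, hd]; push_cast; rfl, ?_⟩
    have : ∑ j, |a j| = ∑ j, a j := Finset.sum_congr rfl fun j _ => abs_of_nonneg (h0 j)
    rw [this, hs]
    have : ∑ j, nu j ≤ H := by omega
    exact_mod_cast this
  have hLK : L - K = 0 := by
    apply LBA_key hVAN (d := d) (H := H) c hc0 hgen
    · intro a ha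
      rcases Finset.mem_union.1 (Finsupp.support_sub ha) with h | h
      · obtain ⟨z, hz, haz⟩ := h1 a h
        exact (hB z (hirr z hz)).1.1 a haz
      · exact hKW a h
    · intro n hn
      rw [Finsupp.sum_sub_index (by intros; push_cast; ring), h3]
      have hp : (⟨v, t, 1⟩ : A.Pt).pow (n : ℤ) = (⟨v, t, 1⟩ : A.Pt).pow (n : ℤ) := rfl
      have e1 := hQ ((⟨v, t, 1⟩ : A.Pt).pow (n : ℤ))
      obtain ⟨-, -, hpow, -⟩ := hBAS A
      have e2 : A.eig τ ((⟨v, t, 1⟩ : A.Pt).pow (n : ℤ)) =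
          Finset.univ.val.map fun j => c j ^ n := by
        rw [hpow, hord, Multiset.map_map]
        refine Multiset.map_congr rfl fun j _ => ?_
        simp
      rw [e2, hK, ev_pow, sum_eigs] at e1
      rw [← e1, sub_eq_zero]
      congr 1
      refine Multiset.map_congr rfl fun z hz => ?_
      rw [AData.tr, hpow, (hB z (hirr z hz)).1.2, Multiset.map_map]
      simp
  intro a
  rw [← sub_eq_zero.1 hLK, h2]

end Pool.H66.SYM
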