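import Pool.Agent.H66.SYM.Basic

/-!
# The elements of the orbits
-/

namespace Pool.H66.SYM

open Filter Topology

/-! ## Idempotents in a commutative ring -/

theorem ORB_prod {R : Type*} [CommRing R] {ι : Type*} (s : Finset ι) (f : R) (x y : ι → R)
    (h : ∀ i ∈ s, f * x i = f * y i) : f * ∏ i ∈ s, x i = f * ∏ i ∈ s, y i := by
  classical
  induction s using Finset.induction_on with
  | empty => simp
  | insert i s hi ih =>
    rw [Finset.prod_insert hi, Finset.prod_insert hi]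
    have h1 := ih fun j hj => h j (Finset.mem_insert_of_mem hj)
    have h2 := h i (Finset.mem_insert_self _ _)
    calc f * (x i * ∏ i ∈ s, x i) = (f * x i) * ∏ i ∈ s, x i := by ring
      _ = y i * (f * ∏ i ∈ s, x i) := by rw [h2]; ring
      _ = f * (y i * ∏ i ∈ s, y i) := by rw [h1]; ring

/-- Products over `0, …, n` of `i - S`, `S` a sum of `n` idempotents, vanish. -/
theorem ORB_idem0 {R : Type*} [CommRing R] {ι : Type*} [DecidableEq ι] (E : ι → R)
    (hE : ∀ i, E i * E i = E i) (s : Finset ι) :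
    ∏ i ∈ Finset.range (s.card + 1), ((i : R) - ∑ j ∈ s, E j) = 0 := by
  induction s using Finset.induction_on with
  | empty => simp
  | insert j s hj ih =>
    rw [Finset.card_insert_of_notMem hj, Finset.sum_insert hj]
    set S := ∑ j ∈ s, E j with hS
    set n := s.card with hn
    have h1 : (1 - E j) * ∏ i ∈ Finset.range (n + 1 + 1), ((i : R) - (E j + S)) = 0 := by
      rw [ORB_prod _ _ _ (fun i : ℕ => (i : R) - S), Finset.prod_range_succ, ih]
      · ring
      · intro i _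
        have := hE j
        linear_combination this
    have h2 : E j * ∏ i ∈ Finset.range (n + 1 + 1), ((i : R) - (E j + S)) = 0 := by
      rw [ORB_prod _ _ _ (fun i : ℕ => (i : R) - 1 - S), Finset.prod_range_succ']
      · have h3 : ∏ k ∈ Finset.range (n + 1), (((k + 1 : ℕ) : R) - 1 - S) =
            ∏ k ∈ Finset.range (n + 1), ((k : R) - S) :=
          Finset.prod_congr rfl fun k _ => by push_cast; ring
        rw [h3, ih]
        ring
      · intro i _
        have := hE j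
        linear_combination -this
    linear_combination h1 + h2

theorem ORB_idem1 {R : Type*} [CommRing R] {ι : Type*} [DecidableEq ι] (E : ι → R)
    (hE : ∀ i, E i * E i = E i) (s : Finset ι) (j : ι) (hj : j ∈ s) :
    (∏ i ∈ Finset.range s.card, (((i + 1 : ℕ) : R) - ∑ k ∈ s, E k)) * E j = 0 := by
  obtain ⟨n, hn⟩ : ∃ n, s.card = n + 1 :=
    ⟨s.card - 1, (Nat.succ_pred_eq_of_pos (Finset.card_pos.2 ⟨j, hj⟩)).symm⟩
  have h0 := ORB_idem0 E hE (s.erase j)
  rw [Finset.card_erase_of_mem hj, hn, Nat.add_sub_cancel] at h0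
  rw [hn, ← Finset.add_sum_erase s E hj, mul_comm,
    ORB_prod _ _ _ (fun i : ℕ => (i : R) - ∑ k ∈ s.erase j, E k), h0, mul_zero]
  intro i _
  have := hE j
  push_cast
  linear_combination -this

/-! ## The ring of virtual representations -/

theorem ORB_one (hRTA : S_RTA) (hBAS : S_BAS) (A : Aut) (τ : A.Cusp) (m : ℕ)
    (hm : 2 ≤ m) (hd : A.deg τ = m) :
    (1 : A.Pt → ℂ) ∈ A.RH τ m 0 0 := by
  have h1 := (hRTA A τ m hm hd).1
  have h : A.tr A.one = 1 := by
    ext p
    have := (hBAS A).2.2.2.1 p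
    simp [AData.tr, this]
  rw [← h]
  exact AddSubgroup.subset_closure (Set.mem_image_of_mem _ h1)

/-- The ring of virtual representations. -/
def ORB_ring (hRTA : S_RTA) (hRMU : S_RMU) (hBAS : S_BAS) (A : Aut) (τ : A.Cusp) (m : ℕ)
    (h2 : A.HasSym 2) (hm : 2 ≤ m) (hd : A.deg τ = m) : Subring (A.Pt → ℂ) where
  carrier := A.RR τ m
  mul_mem' := by
    intro F G hF hG
    exact (hRMU A τ m h2 hm hd).2.2.2.1 F hF G hG
  one_mem' := (hRMU A τ m h2 hm hd).2.2.2.2.1 0 0 (ORB_one hRTA hBAS A τ m hm hd)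
  add_mem' := by
    intro F G hF hG
    exact AddSubgroup.add_mem _ hF hG
  zero_mem' := AddSubgroup.zero_mem _
  neg_mem' := by
    intro F hF
    exact AddSubgroup.neg_mem _ hF

/-- The homomorphism to the ring of the limits. -/
def ORB_hom (hRTA : S_RTA) (hRMU : S_RMU) (hBAS : S_BAS) (A : Aut) (τ : A.Cusp) (m : ℕ)
    (h2 : A.HasSym 2) (hm : 2 ≤ m) (hd : A.deg τ = m) (L : Lim A τ m) :
    ORB_ring hRTA hRMU hBAS A τ m h2 hm hd →+* L.Q where
  toFun F := L.M fun v => F.1 (A.frob v)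
  map_one' := L.M_one
  map_mul' F G := L.M_mul _ _ (L.bd _ F.2) (L.bd _ G.2)
  map_zero' := by
    have h := L.M_add (fun v => (0 : A.Pt → ℂ) (A.frob v)) (fun v => (0 : A.Pt → ℂ) (A.frob v))
      (L.bd _ (AddSubgroup.zero_mem _)) (L.bd _ (AddSubgroup.zero_mem _))
    have h3 : ((fun v => (0 : A.Pt → ℂ) (A.frob v)) + fun v => (0 : A.Pt → ℂ) (A.frob v)) =
        fun v => (0 : A.Pt → ℂ) (A.frob v) := by
      ext v
      simp
    rw [h3] at h
    exact left_eq_add.1 h
  map_add' F G := L.M_add _ _ (L.bd _ F.2) (L.bd _ G.2)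

theorem ORB_bd_prod {V : Type} {ι : Type*} (s : Finset ι) (f : ι → V → ℂ)
    (h : ∀ i ∈ s, ∀ v, ‖f i v‖ ≤ 2) : Bd fun v => ∏ i ∈ s, f i v := by
  refine ⟨2 ^ s.card, fun v => ?_⟩
  rw [norm_prod]
  calc ∏ i ∈ s, ‖f i v‖ ≤ ∏ i ∈ s, (2 : ℝ) :=
        Finset.prod_le_prod (fun i _ => norm_nonneg _) fun i hi => h i hi v
    _ = 2 ^ s.card := by simp

theorem ORB_wt {m : ℕ} (a : Fin m → ℤ) (ha : ∑ j, a j = 0) :
    a ∈ Wt m 0 (∑ j, |a j|).toNat := by
  refine ⟨ha, ?_⟩
  rw [Int.toNat_of_nonneg (Finset.sum_nonneg fun j _ => abs_nonneg _)]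

theorem s_ORB (hRMU : S_RMU) (hRTA : S_RTA) (hRSY : S_RSY) (hSPR : S_SPR) (hBAS : S_BAS) :
    S_ORB := by
  classical
  intro A τ m M C L a ha
  have h2 : A.HasSym 2 := C.sym 2
  set R := ORB_ring hRTA hRMU hBAS A τ m h2 C.hm C.deg with hR
  set Φ : R →+* L.Q := ORB_hom hRTA hRMU hBAS A τ m h2 C.hm C.deg L with hΦ
  have hinj : ∀ F : R, Φ F = 0 → F = 0 := fun F hF => Subtype.ext (L.inj F.1 F.2 hF)
  obtain ⟨-, -, -, -, hRR, hmono⟩ := hRMU A τ m h2 C.hm C.deg
  set H := (∑ j, |a j|).toNat with hH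
  have haW : a ∈ Wt m 0 H := ORB_wt a ha
  have hnW : ∀ (n : ℕ) (σ : Equiv.Perm (Fin m)), (n : ℤ) • (a ∘ σ) ∈ Wt m 0 (n * H) := by
    intro n σ
    have := Wt_smul (Wt_comp haW σ) n
    simpa using this
  -- the power sums
  have hG : ∀ n : ℕ, ∃ F ∈ A.RR τ m, ∀ p c, A.Ord τ p c →
      F p = ∑ σ : Equiv.Perm (Fin m), mon c (a ∘ σ) ^ n := by
    intro n
    have k1 : ∀ b ∈ (∑ σ : Equiv.Perm (Fin m),
        Finsupp.single ((n : ℤ) • (a ∘ σ)) (1 : ℤ)).support, b ∈ Wt m 0 (n * H) := by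
      intro b hb
      have := Finsupp.support_finsetSum hb
      rw [Finset.mem_biUnion] at this
      obtain ⟨σ, _, hσ⟩ := this
      have := Finsupp.support_single_subset hσ
      rw [Finset.mem_singleton] at this
      rw [this]
      exact hnW n σ
    have k2 : ∀ (ρ : Equiv.Perm (Fin m)) (b : Fin m → ℤ),
        (∑ σ : Equiv.Perm (Fin m), Finsupp.single ((n : ℤ) • (a ∘ σ)) (1 : ℤ)) (b ∘ ρ) =
          (∑ σ : Equiv.Perm (Fin m), Finsupp.single ((n : ℤ) • (a ∘ σ)) (1 : ℤ)) b := by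
      intro ρ b
      rw [Finsupp.finsetSum_apply, Finsupp.finsetSum_apply,
        ← Equiv.sum_comp (Equiv.mulRight ρ⁻¹)
          fun σ : Equiv.Perm (Fin m) => (Finsupp.single ((n : ℤ) • (a ∘ σ)) (1 : ℤ)) b]
      refine Finset.sum_congr rfl fun σ _ => ?_
      rw [Finsupp.single_apply, Finsupp.single_apply]
      refine if_congr ?_ rfl rfl
      constructor
      · intro h
        ext j
        have := congrFun h (ρ⁻¹ j)
        simpa using this
      · intro h
        ext j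
        have := congrFun h (ρ j)
        simpa using this
    obtain ⟨F, hF, hF'⟩ := hRSY A τ m C.sym C.hm C.deg 0 (n * H) _ k1 k2
    refine ⟨F, hRR _ _ hF, fun p c hc => ?_⟩
    rw [hF' p c hc, ev_sum]
    refine Finset.sum_congr rfl fun σ _ => ?_
    rw [ev_single, mon_smul]
    simp
  choose G hG1 hG2 using hG
  obtain ⟨g, hg, hgE⟩ := L.lim (Equiv.Perm (Fin m)) (fun _ _ => 1) (fun σ => a ∘ σ)
    (fun _ => ⟨1, fun v => by simp⟩) G (fun n _ => hG1 n) (by
      intro n _ v
      rw [hG2 n _ _ (L.c_ord v)]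
      simp)
  have hM1 : L.M (fun _ => 1) = 1 := L.M_one
  simp only [hM1, one_mul] at hgE
  set gR : R := ⟨g, hg⟩ with hgR
  have hΦg : Φ gR = ∑ σ : Equiv.Perm (Fin m), L.E (a ∘ σ) := hgE.symm
  have hcard : (Finset.univ : Finset (Equiv.Perm (Fin m))).card = m.factorial := by
    rw [Finset.card_univ, Fintype.card_perm, Fintype.card_fin]
  have hval : ∀ (F : R) (p : A.Pt), F.1 p = (Pi.evalRingHom (fun _ : A.Pt => ℂ) p) (R.subtype F) :=
    fun F p => rfl
  refine ⟨g, hg, ?_, ?_, ?_⟩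
  · -- the values
    have h0 : ∏ i ∈ Finset.range (m.factorial + 1), ((i : R) - gR) = 0 := by
      apply hinj
      rw [map_prod]
      have := ORB_idem0 (fun σ : Equiv.Perm (Fin m) => L.E (a ∘ σ)) (fun σ => L.E_idem _)
        Finset.univ
      rw [hcard] at this
      rw [← this]
      refine Finset.prod_congr rfl fun i _ => ?_
      rw [map_sub, hΦg, map_natCast]
    intro p
    have h1 := congrArg (fun F => (Pi.evalRingHom (fun _ : A.Pt => ℂ) p) (R.subtype F)) h0
    simp only [map_prod, map_sub, map_natCast, map_zero] at h1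
    obtain ⟨i, hi, hi'⟩ := Finset.prod_eq_zero_iff.1 h1
    refine ⟨i, by have := Finset.mem_range.1 hi; omega, ?_⟩
    have h4 : (i : ℂ) - g p = 0 := hi'
    exact (sub_eq_zero.1 h4).symm
  · -- the element `K`
    set K : R := ∏ i ∈ Finset.range m.factorial, (((i + 1 : ℕ) : R) - gR) with hK
    refine ⟨K.1, K.2, fun σ => ?_, fun p hp => ?_⟩
    · have h1 : L.M (fun v => K.1 (A.frob v)) = Φ K := rfl
      rw [h1, hK, map_prod]
      have := ORB_idem1 (fun σ : Equiv.Perm (Fin m) => L.E (a ∘ σ)) (fun σ => L.E_idem _)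
        Finset.univ σ (Finset.mem_univ _)
      rw [hcard] at this
      rw [← this]
      congr 1
      refine Finset.prod_congr rfl fun i _ => ?_
      rw [map_sub, hΦg, map_natCast]
    · rw [hval, hK]
      simp only [map_prod, map_sub, map_natCast]
      rw [Finset.prod_ne_zero_iff]
      intro i _
      have h4 : (Pi.evalRingHom (fun _ : A.Pt => ℂ) p) (R.subtype gR) = 0 := hp
      rw [h4, sub_zero]
      exact Nat.cast_ne_zero.2 (Nat.succ_ne_zero i)
  · -- periodicity
    obtain ⟨q, hq, hqE⟩ := L.per a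
    refine ⟨q, hq, ?_⟩
    have hone : (1 : A.Pt → ℂ) ∈ A.RH τ m 0 (q * H) :=
      hmono 0 0 (q * H) (Nat.zero_le _) (ORB_one hRTA hBAS A τ m C.hm C.deg)
    obtain ⟨X, hX, hX'⟩ := hSPR A τ m C.sym C.hm C.deg 0 (q * H) 1 hone (Equiv.Perm (Fin m))
      (fun σ => Finsupp.single ((q : ℤ) • (a ∘ σ)) 1) (fun ρ => Equiv.mulRight ρ⁻¹) (by
        intro σ b hb
        have := Finsupp.support_single_subset hb
        rw [Finset.mem_singleton] at this
        rw [this]
        exact hnW q σ) (by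
        intro ρ σ b
        rw [Finsupp.single_apply, Finsupp.single_apply]
        refine if_congr ?_ rfl rfl
        constructor
        · intro h
          ext j
          have := congrFun h (ρ j)
          simpa using this
        · intro h
          ext j
          have := congrFun h (ρ⁻¹ j)
          simpa using this)
    have hXv : ∀ p c, A.Ord τ p c → X p =
        ∏ σ : Equiv.Perm (Fin m), (1 - mon c (a ∘ σ) ^ q) := by
      intro p c hc
      rw [hX' p c hc]
      refine Finset.prod_congr rfl fun σ _ => ?_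
      rw [ev_single, mon_smul]
      simp
    have hXR : X ∈ A.RR τ m := hRR _ _ hX
    have hu : ∀ (σ : Equiv.Perm (Fin m)) v, ‖mon (L.c v) (a ∘ σ) ^ q‖ = 1 := by
      intro σ v
      rw [norm_pow, mon_norm _ (L.c_norm v), one_pow]
    have hu2 : ∀ (σ : Equiv.Perm (Fin m)) v, ‖1 - mon (L.c v) (a ∘ σ) ^ q‖ ≤ 2 := by
      intro σ v
      calc ‖1 - mon (L.c v) (a ∘ σ) ^ q‖ ≤ ‖(1 : ℂ)‖ + ‖mon (L.c v) (a ∘ σ) ^ q‖ :=
            norm_sub_le _ _
        _ = 2 := by rw [hu, norm_one]; norm_num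
    have hkill : ∀ σ : Equiv.Perm (Fin m), L.E (a ∘ σ) * Φ ⟨X, hXR⟩ = 0 := by
      intro σ
      have b1 : Bd fun v => 1 - mon (L.c v) (a ∘ σ) ^ q := ⟨2, fun v => hu2 σ v⟩
      have b2 : Bd fun v => mon (L.c v) (a ∘ σ) ^ q := ⟨1, fun v => (hu σ v).le⟩
      have b3 : Bd fun v => ∏ ρ ∈ Finset.univ.erase σ, (1 - mon (L.c v) (a ∘ ρ) ^ q) :=
        ORB_bd_prod _ (fun (ρ : Equiv.Perm (Fin m)) v => 1 - mon (L.c v) (a ∘ ρ) ^ q)
          fun ρ _ v => hu2 ρ v
      have e1 : Φ ⟨X, hXR⟩ = L.M (fun v => 1 - mon (L.c v) (a ∘ σ) ^ q) *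
          L.M (fun v => ∏ ρ ∈ Finset.univ.erase σ, (1 - mon (L.c v) (a ∘ ρ) ^ q)) := by
        rw [← L.M_mul _ _ b1 b3]
        change L.M _ = L.M _
        congr 1
        ext v
        change X (A.frob v) = _
        rw [hXv _ _ (L.c_ord v)]
        simp only [Pi.mul_apply]
        rw [Finset.mul_prod_erase Finset.univ
          (fun ρ : Equiv.Perm (Fin m) => 1 - mon (L.c v) (a ∘ ρ) ^ q) (Finset.mem_univ σ)]
      have e2 : L.M (fun v => 1 - mon (L.c v) (a ∘ σ) ^ q) +
          L.M (fun v => mon (L.c v) (a ∘ σ) ^ q) = 1 := by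
        rw [← L.M_add _ _ b1 b2, ← L.M_one]
        congr 1
        ext v
        simp
      have e3 := hqE σ
      rw [e1]
      linear_combination (L.E (a ∘ σ) *
        L.M (fun v => ∏ ρ ∈ Finset.univ.erase σ, (1 - mon (L.c v) (a ∘ ρ) ^ q))) * e2 -
        L.M (fun v => ∏ ρ ∈ Finset.univ.erase σ, (1 - mon (L.c v) (a ∘ ρ) ^ q)) * e3
    have hgX : gR * ⟨X, hXR⟩ = 0 := by
      apply hinj
      rw [map_mul, hΦg, Finset.sum_mul]
      exact Finset.sum_eq_zero fun σ _ => hkill σ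
    intro p c hc
    have h5 : g p * X p = 0 :=
      congrArg (fun F : R => F.1 p) hgX
    rw [hXv p c hc] at h5
    have h6 : ∏ σ : Equiv.Perm (Fin m), (mon c (a ∘ σ) ^ q - 1) =
        (-1) ^ m.factorial * ∏ σ : Equiv.Perm (Fin m), (1 - mon c (a ∘ σ) ^ q) := by
      rw [← hcard, ← Finset.prod_const, ← Finset.prod_mul_distrib]
      exact Finset.prod_congr rfl fun σ _ => by ring
    rw [h6]
    linear_combination (-1) ^ m.factorial * h5

end Pool.H66.SYM
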